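import Pool.Agent.MP_750e50_lc.HypAmen

/-!
# Borel-bounded Fréchet-amenable subrelations of hyperbolic equivalence relations are hyperfinite
-/

set_option autoImplicit false

namespace Pool.Agent.Results.MP_750e50_lc.AmenableHyperbolic

open Pool.Agent.MP_750e50_lc

/-- Let `E'` be a countable Borel equivalence relation whose classes are the components of a Borel
graph with Gromov hyperbolic components of bounded degree (for instance the orbit equivalence
relation of a free Borel action of a hyperbolic group). A Borel-bounded countable Borel
equivalence relation `E ⊆ E'` is hyperfinite if and only if it is Fréchet-amenable. -/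
theorem result (X : Type) [MeasurableSpace X] [StandardBorelSpace X] (E E' : Setoid X)
    (hE : IsCBER E) (hE' : IsCBER E') (hsub : ∀ x y, E.r x y → E'.r x y)
    (hH : HyperbolicGraphing E') (hB : BorelBounded E) :
    Hyperfinite E ↔ FrechetAmenable E :=
  ⟨frechetAmenable_of_hyperfinite hE, fun hA => hyperfinite_of_boundedIndexLimit hE hB
    (boundedIndexLimit_of_hyperbolic_amenable hE hE' hsub hH hA)⟩

end Pool.Agent.Results.MP_750e50_lc.AmenableHyperbolic
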