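import Pool.Agent.MP_750e50_lc.TreeAmen

/-!
# Borel-bounded treeable Fréchet-amenable equivalence relations are hyperfinite
-/

set_option autoImplicit false

namespace Pool.Agent.Results.MP_750e50_lc.AmenableTreeable

open Pool.Agent.MP_750e50_lc

/-- A Borel-bounded treeable countable Borel equivalence relation on a standard Borel space is
hyperfinite if and only if it is Fréchet-amenable. -/
theorem result (X : Type) [MeasurableSpace X] [StandardBorelSpace X] (E : Setoid X)
    (hE : IsCBER E) (hB : BorelBounded E) (hT : Treeable E) :
    Hyperfinite E ↔ FrechetAmenable E :=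
  ⟨frechetAmenable_of_hyperfinite hE, fun hA => hyperfinite_of_boundedIndexLimit hE hB
    (boundedIndexLimit_of_treeable_amenable hE hT hA)⟩

end Pool.Agent.Results.MP_750e50_lc.AmenableTreeable
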