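import Pool.Agent.MP_750e50_lc.Classes

/-!
# Borel-bounded equivalence relations of finite asymptotic separation index are hyperfinite
-/

set_option autoImplicit false

open Filter

namespace Pool.Agent.Results.MP_750e50_lc.BoundedIndexHyperfinite

open Pool.Agent.MP_750e50_lc

/-- Let `E` be a Borel-bounded countable Borel equivalence relation on a standard Borel space `X`.
The following are equivalent: (1) `E` is hyperfinite; (2) `E` has finite asymptotic separation
index; (3) `E` has finite amenability dimension along an iterated Fréchet filter; (4) `E` is a limit
of bounded index, along an iterated Fréchet filter, of Borel equivalence relations with finite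
classes. -/
theorem result (X : Type) [MeasurableSpace X] [StandardBorelSpace X] (E : Setoid X)
    (hE : IsCBER E) (hB : BorelBounded E) :
    List.TFAE [Hyperfinite E, FiniteAsi E, FiniteAmenabilityDim E, BoundedIndexLimit E] := by
  tfae_have 1 → 2 := finiteAsi_of_hyperfinite
  tfae_have 1 → 3 := finiteAmenabilityDim_of_hyperfinite hE
  tfae_have 2 → 4 := boundedIndexLimit_of_finiteAsi
  tfae_have 3 → 4 := boundedIndexLimit_of_finiteAmenabilityDim hE
  tfae_have 4 → 1 := hyperfinite_of_boundedIndexLimit hE hB
  tfae_finish

end Pool.Agent.Results.MP_750e50_lc.BoundedIndexHyperfinite
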