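import Pool.Agent.MP_750e50_lc.Reduce

/-!
# Hyperfiniteness and guessing by homomorphisms to `E_0(ℕ)`
-/

set_option autoImplicit false

open Filter

namespace Pool.Agent.Results.MP_750e50_lc.GuessingHyperfinite

open Pool.Agent.MP_750e50_lc

/-- Let `E` be a countable Borel equivalence relation on a standard Borel space `X`. The following
are equivalent: (1) `E` is hyperfinite; (2) for every `h → ∞` each Borel `f : X → ℕ^ℕ` is eventually
captured by a Borel homomorphism to sequences of finite sets of size `≤ h n` modulo finite;
(3) each Borel `f : X → ℕ^ℕ` is infinitely often equal to a Borel homomorphism from `E` to `E_0(ℕ)`;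
(4) for some `h : ℕ → ℕ` each Borel `f` which is bounded by some `b : ℕ → ℕ` is infinitely often
captured by a Borel homomorphism to sequences of finite sets of size `≤ h n` modulo finite;
(5) for each Borel `f : X × ℕ^ℕ → ℕ^ℕ` there is `h` such that `f` is infinitely often captured by such
a homomorphism from `E × Δ(ℕ^ℕ)`. -/
theorem result (X : Type) [MeasurableSpace X] [StandardBorelSpace X] (E : Setoid X)
    (hE : IsCBER E) :
    List.TFAE [Hyperfinite E,
      ∀ h : ℕ → ℕ, Tendsto h atTop atTop → Localizable E h,
      Guessable E,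
      ∃ h : ℕ → ℕ, WeaklyGuessable E h,
      UniformlyGuessable (timesDiag E)] := by
  tfae_have 1 → 2 := fun h1 h hh => localizable_of_hyperfinite hE h1 hh
  tfae_have 2 → 3 := fun h2 => guessable_of_localizable (h2 _ (tendsto_add_atTop_nat 1))
  tfae_have 3 → 4 := fun h3 => ⟨_, weaklyGuessable_of_guessable h3⟩
  tfae_have 4 → 1 := fun ⟨_, h4⟩ => hyperfinite_of_weaklyGuessable hE h4
  tfae_have 1 → 5 := uniformlyGuessable_timesDiag hE
  tfae_have 5 → 1 := hyperfinite_of_uniformlyGuessable hE
  tfae_finish

end Pool.Agent.Results.MP_750e50_lc.GuessingHyperfinite
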